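import Pool.Agent.H65.BO.Fin
import Pool.Agent.H65.BO.G0
import Pool.Agent.H65.BO.CAT
import Pool.Agent.H78.BO.APP
import Pool.Agent.H78.BO.TRF
import Pool.Agent.H19.BO.DSQ
import Pool.Agent.H32.BO.FUS
import Pool.Agent.H65.BO.NET

/-!
# `MP_f4fb69_gt`: spaces given by one Borel function of two variables

Definitions used in the statement:

* (`Pool/Agent/H60/CP/Pos.lean`) `CpHS X`: every set of continuous real functions on `X` has a
  countable subset which is dense in it for the topology of pointwise convergence, that is, `C_p(X)`
  is hereditarily separable; `CpHSS X`: every set `S` of continuous real functions on `X` has a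
  countable subset `D` such that each member of `S` is the pointwise limit of a sequence in `D`, that
  is, `C_p(X)` is hereditarily sequentially separable;
* (`Pool/Agent/H66/CP/Examples.lean`) `HasCountableNetwork X`: there are sets `N n`, `n : ℕ`, such that
  for each `x` in an open set `O` there is `n` with `x ∈ N n ⊆ O`;
* (`Pool/Agent/H65/BO/Fin.lean`) `BorelFamily X`: there are Polish spaces `P` and `F` and a Borel
  function `h : P × F → ℝ` such that `X` is homeomorphic to the subspace `{h (p, ·) : p ∈ P}` of the
  product space `F → ℝ`.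
-/

set_option autoImplicit false

namespace Pool.Agent.Results.MP_f4fb69_gt.BorelFamilies

open Set Topology Cardinal Pool.Agent.H60.CP Pool.Agent.H66.CP Pool.Agent.H65.BO

theorem net : T_NET :=
  Pool.Agent.H65.BO.pf_NET
    (Pool.Agent.H65.BO.CAT.pf_CAT Pool.Agent.H78.BO.pf_APP Pool.Agent.H19.BO.pf_DSQ
      (Pool.Agent.H78.BO.pf_TRF Pool.Agent.H78.BO.pf_APP) Pool.Agent.H65.BO.pf_G0
      Pool.Agent.H32.BO.pf_FUS)

theorem t35 {X : Type} [TopologicalSpace X] (hB : BorelFamily X) : T35Space X := by
  obtain ⟨P, F, tP, pP, tF, pF, h, hh, j, hj, hr⟩ := hB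
  have h1 : T0Space X := hj.t0Space
  have h2 : CompletelyRegularSpace X := hj.isInducing.completelyRegularSpace
  exact { toT0Space := h1, toCompletelyRegularSpace := h2 }

theorem result : ∀ (X : Type) [TopologicalSpace X], BorelFamily X →
    -- a countable network or a large discrete subspace of the fourth power
    (HasCountableNetwork X ∨ ∃ D : Set (Fin 4 → X), DiscreteTopology D ∧ #D = 𝔠) ∧
    -- if `C_p(X)` is hereditarily separable then `X` has a countable network and `C_p(X)` is
    -- hereditarily sequentially separable
    (CpHS X → HasCountableNetwork X ∧ CpHSS X) := by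
  intro X _ hB
  have hT : T35Space X := t35 hB
  refine ⟨?_, fun h => ?_⟩
  · by_cases hD : Disc (Fin 4) X
    · exact Or.inr (discrete_of_disc hD)
    · exact Or.inl (dichotomy net hB hD)
  · have h1 := dichotomy net hB (not_disc h)
    exact ⟨h1, hss_of_network h h1⟩

end Pool.Agent.Results.MP_f4fb69_gt.BorelFamilies
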