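import Pool.Agent.H62.CB.Fun

/-!
# `MP_f4fb69_gt`: a theorem of ZFC which gives a counterexample to Q1 if `𝔟 = ℵ₁`

Definitions used in the statement (in `Pool/Agent/H62/CB/Big.lean` and `Pool/Agent/H62/CB/Fun.lean`):

* `bb`: the bounding number `𝔟`, the least cardinality of a family of functions `g : ℕ → ℕ` such that
  no `f : ℕ → ℕ` satisfies `g(n) ≤ f(n)` for all large `n` for every `g` in the family.
* `HD κ X`: every set of continuous real functions on `X` has a subset of cardinality less than `κ`
  which is dense in it in the topology of pointwise convergence; for `κ = ℵ₁` this is the hypothesis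
  of Q1.
* `HL κ X`: every family of open subsets of `ℝ^X` which covers a set `S` of continuous functions has
  a subfamily of cardinality less than `κ` which covers `S`.
* `SeqD κ S`: the set `S` of functions has a subset of cardinality less than `κ` from which each
  member of `S` is the pointwise limit of a sequence; for `κ = ℵ₁` this says that `S` is sequentially
  separable.
-/

set_option autoImplicit false

namespace Pool.Agent.Results.MP_f4fb69_gt.BoundingCounterexample

open Set Filter Topology Cardinal Pool.Agent.H62.CB

/-- In ZFC there is a Tychonoff space `X` of cardinality `𝔟` such that every subset of `C_p(X)` has a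
dense subset of cardinality less than `𝔟` (and every open cover of it has a subcover of cardinality
less than `𝔟`), and a set `S` of continuous functions of cardinality `𝔟` without nontrivial
convergent sequences, so that no subset of `S` of cardinality less than `𝔟` is sequentially dense in
`S`. In particular Q1 has a negative answer if `𝔟 = ℵ₁`. -/
theorem result :
    (∃ (X : Type) (_ : TopologicalSpace X), T35Space X ∧ #X = bb ∧ HD bb X ∧ HL bb X ∧
      ∃ S : Set (X → ℝ), (∀ f ∈ S, Continuous f) ∧ #S = bb ∧
        (∀ (u : ℕ → X → ℝ) (g : X → ℝ), (∀ n, u n ∈ S) → g ∈ S → Tendsto u atTop (𝓝 g) →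
          ∀ᶠ n in atTop, u n = g) ∧ ¬ SeqD bb S) ∧
    (ℵ₀ < bb ∧ bb ≤ Cardinal.continuum) ∧
    (bb = Cardinal.aleph 1 → ¬ (∀ (X : Type) [TopologicalSpace X] [T35Space X],
      (∀ S : Set (X → ℝ), (∀ f ∈ S, Continuous f) →
        ∃ D ⊆ S, D.Countable ∧ S ⊆ closure D) →
      ∀ S : Set (X → ℝ), (∀ f ∈ S, Continuous f) →
        ∃ D ⊆ S, D.Countable ∧
          ∀ f ∈ S, ∃ u : ℕ → X → ℝ, (∀ n, u n ∈ D) ∧
            Filter.Tendsto u Filter.atTop (nhds f))) :=
  ⟨main, ⟨aleph0_lt_bb, bb_le_continuum⟩, q1_fails⟩

end Pool.Agent.Results.MP_f4fb69_gt.BoundingCounterexample
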