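import Pool.Agent.H66.CP.Examples

/-!
# `MP_f4fb69_gt`: a class of spaces for which Q1 has a positive answer in ZFC

Definitions used in the statement:

* (`Pool/Agent/H60/CP/Pos.lean`) `CpHS X`: every set of continuous real functions on `X` is
  separable in the topology of pointwise convergence (the hypothesis of Q1); `CpHSS X`: every set of
  continuous real functions on `X` has a countable subset from which each member of the set is a
  pointwise limit of a sequence (the conclusion of Q1); `PGt κ`: every family of at most `κ` subsets
  of `ℕ` whose finite subfamilies have infinite intersections has an infinite pseudo-intersection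
  (for infinite `κ` this is `κ < 𝔭`).
* (`Pool/Agent/H66/CP/Nice.lean`) `Suborderable`: subspaces of linearly ordered spaces (generalized
  ordered spaces); `WeakGamma`: a common generalization of `γ`-spaces and of spaces with a countable
  network; `Nice`: the least class of spaces which contains the weak `γ`-spaces and the suborderable
  spaces and is closed under subspaces, countable products and countable unions.
* (`Pool/Agent/H66/CP/Examples.lean`) `GammaSpace`, `QuasiMetrizable`, `HasCountableNetwork`.
-/

set_option autoImplicit false

namespace Pool.Agent.Results.MP_f4fb69_gt.GammaSpaces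

open Set Cardinal Pool.Agent.H60.CP Pool.Agent.H66.CP

/-- Q1 has a positive answer for every Tychonoff space `X` for which `X ∖ T` is in the class `Nice`
for some set `T` of fewer than `𝔭` points. -/
theorem result :
    (∀ (X : Type) [TopologicalSpace X] [T35Space X] (κ : Cardinal.{0}) (T : Set X),
      ℵ₀ ≤ κ → PGt κ → #T ≤ κ → Nice (Tᶜ : Set X) instTopologicalSpaceSubtype → CpHS X → CpHSS X) ∧
    PGt ℵ₀ ∧
    ∀ (Y : Type) [TopologicalSpace Y],
      GammaSpace Y ∨ QuasiMetrizable Y ∨ HasCountableNetwork Y → WeakGamma Y := by
  refine ⟨fun X _ _ κ T hκ hp hT hN hX => main_nice hκ hp hT hN hX, pgt_aleph0, fun Y _ h => ?_⟩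
  rcases h with h | h | h
  · exact h.weakGamma
  · exact h.gammaSpace.weakGamma
  · exact h.weakGamma

end Pool.Agent.Results.MP_f4fb69_gt.GammaSpaces
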