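import Pool.Agent.H60.CP.Red

/-!
# `MP_f4fb69_gt`: Q1 is a question about subspaces of `ℝ^{ω₁}` and their coordinate projections

Definitions used in the statement (all in `Pool/Agent/H60/CP/Pos.lean`, `Cof.lean`, `Final.lean`):

* `CpHS X`: every set of continuous real functions on `X` is separable in the topology of pointwise
  convergence (the hypothesis of Q1); `SeqSep S`: the set `S` of functions has a countable subset
  from which each member of `S` is a pointwise limit of a sequence; `CpHSS X`: every set of
  continuous real functions is `SeqSep` (the conclusion of Q1).
* `Om1`: the well ordered set of all countable ordinals.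
-/

set_option autoImplicit false

namespace Pool.Agent.Results.MP_f4fb69_gt.Reduction

open Set Filter Topology Cardinal Pool.Agent.H60.CP

/-- In ZFC, Q1 has a positive answer if and only if for every subspace `Z` of `ℝ^{ω₁}` with `C_p(Z)`
hereditarily separable the set of coordinate projections of `Z` is sequentially separable. -/
theorem result :
    (∀ (X : Type) [TopologicalSpace X] [T35Space X], CpHS X → CpHSS X) ↔
      ∀ Z : Set (Om1 → ℝ), CpHS Z → SeqSep (Set.range (fun (a : Om1) (z : Z) => z.1 a)) :=
  reduction

end Pool.Agent.Results.MP_f4fb69_gt.Reduction
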